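import Pool.Agent.V11257.Mf7

/-!
# A filterbase infinite set that is strongly filterbase finite

The model is a symmetric model with a copy `A` of the set `ω × ω × ω` and names for all its
subsets, with the group of all permutations `h` such that for all `B` and `i` the symmetric
difference of `B` and `{i} × ω × ω` is in the ideal `I` iff that of `h B` and `{i} × ω × ω` is. Here
`I` is the ideal of the sets `S` such that for every `i`, for almost all `m`, the set of all `k`
with `(i, m, k)` in `S` is finite; every infinite set contains an infinite element of `I`.
-/

namespace Pool.Agent.Results.MP_915581_lc.FilterbaseInfiniteNotStrongly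

open FirstOrder FirstOrder.Language
open Pool.Agent.Helper672.Plain (LSet)
open Pool.Agent.H635Amen (ZF)
open Pool.Agent.V11257G
open Pool.Agent.V11257Z (exists_of_forall)

universe u

/-- There is a model of ZF (and for every model of ZF there is one in the same universe) with a
set that is filterbase infinite but not strongly filterbase infinite. -/
theorem result : (∃ (N : Type 1) (_ : LSet.Structure N),
      ZF N ∧ ∃ x : N, FilterbaseInfinite x ∧ ¬ StronglyFilterbaseInfinite x) ∧
    ∀ (M : Type u) [LSet.Structure M], ZF M → ∃ (N : Type u) (_ : LSet.Structure N),
      ZF N ∧ ∃ x : N, FilterbaseInfinite x ∧ ¬ StronglyFilterbaseInfinite x :=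
  ⟨exists_of_forall fun M _ hM => exists_fb M hM, fun M _ hM => exists_fb M hM⟩

end Pool.Agent.Results.MP_915581_lc.FilterbaseInfiniteNotStrongly
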